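import Pool.Agent.TH942.OB.Gen
import Pool.Agent.TH270.MS.EQ2

/-!
# The bound `log P(x) = O(x^ε)` for the product of Birch and Swinnerton-Dyer
-/

set_option autoImplicit false

open MeasureTheory Filter Topology Set Complex
open Pool.Agent.TH942.ES
open Pool.Agent.TH942.LS (Dat)
open Pool.Agent.TH942.SL
open Pool.Agent.TH942.RZ (LD)
open Pool.Agent.TH270.MS Pool.Agent.TH270.MS.EQ
open Pool.Agent.TH270 (RS.cS')
open Pool.Agent.W263.BSD (GoodPrime pointCount IsLSeries bsdProduct)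

namespace Pool.Agent.TH942.OB

section Sys

variable {X : Type} {d : ℕ} {N : X → ℕ} {α : X → Fin d → ℂ} {e : X × ℕ → ℕ}

/-- the variation of the partial sums of a system with distinct prime powers -/
theorem var_le (E : Sys N α) (he : Function.Injective e)
    (hinj : Function.Injective fun p : X × ℕ => N p.1 ^ (p.2 + 1)) {u : ℝ} (hu : 0 ≤ u) :
    Var (lamS N e) (RS.cS' N α e) u (Real.exp (-(u / 2))) ≤ 3 * d := by
  classical
  set h : ℝ := Real.exp (-(u / 2)) with hh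
  have h0 : 0 < h := Real.exp_pos _
  have h1 : h ≤ 1 := by rw [hh, Real.exp_le_one_iff]; linarith
  set x : ℝ := Real.exp u with hx
  have hx0 : 0 < x := Real.exp_pos _
  have hx1 : 1 ≤ x := Real.one_le_exp hu
  have hhx : h * √x = 1 := by
    rw [hh, hx, Real.sqrt_eq_rpow, ← Real.exp_mul, ← Real.exp_add]
    norm_num
    ring
  have e1 : Var (lamS N e) (RS.cS' N α e) u h =
      ∑' p : X × ℕ, if u < lamP N p ∧ lamP N p ≤ u + h then |cP N α p| else 0 := by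
    unfold Var
    rw [← tsum_cS he (fun c l => if u < l ∧ l ≤ u + h then |c| else 0) (fun l => by simp)]
    refine tsum_congr fun n => ?_
    unfold RS.cS'
    rw [abs_neg]
  have hfin := E.finS (Real.exp (u + h))
  have hlam : ∀ p : X × ℕ, Real.exp (lamP N p) = (N p.1 : ℝ) ^ (p.2 + 1) := by
    intro p
    unfold lamP
    rw [← Nat.cast_succ, Nat.succ_eq_add_one, Real.exp_nat_mul, Real.exp_log (E.Npos p.1)]
  have hmem : ∀ p : X × ℕ, p ∈ hfin.toFinset ↔ lamP N p ≤ u + h := by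
    intro p
    rw [Set.Finite.mem_toFinset, Set.mem_ofPred_eq, ← hlam, Real.exp_le_exp]
  set S : Finset (X × ℕ) := hfin.toFinset.filter (fun p => u < lamP N p) with hS
  have e2 : (∑' p : X × ℕ, if u < lamP N p ∧ lamP N p ≤ u + h then |cP N α p| else 0) =
      ∑ p ∈ S, |cP N α p| := by
    rw [tsum_eq_sum (s := hfin.toFinset)]
    · rw [hS, Finset.sum_filter]
      refine Finset.sum_congr rfl fun p hp => ?_
      by_cases h2 : u < lamP N p
      · rw [if_pos ⟨h2, (hmem p).1 hp⟩, if_pos h2]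
      · rw [if_neg (fun h3 => h2 h3.1), if_neg h2]
    · intro p hp
      rw [if_neg (fun h3 => hp ((hmem p).2 h3.2))]
  have e3 : ∀ p ∈ S, |cP N α p| ≤ d / √x := by
    intro p hp
    rw [hS, Finset.mem_filter, hmem] at hp
    have hN : x ≤ (N p.1 : ℝ) ^ (p.2 + 1) := by
      rw [← hlam, hx]
      exact Real.exp_le_exp.2 hp.2.le
    refine (E.cP_abs p).trans ?_
    rw [div_pow, one_pow, div_eq_mul_one_div (d : ℝ)]
    refine mul_le_mul_of_nonneg_left ?_ (Nat.cast_nonneg _)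
    have e4 : √((N p.1 : ℝ) ^ (p.2 + 1)) = √(N p.1 : ℝ) ^ (p.2 + 1) := by
      rw [← Real.sqrt_sq (show (0 : ℝ) ≤ √(N p.1 : ℝ) ^ (p.2 + 1) by positivity), ← pow_mul,
        mul_comm (p.2 + 1) 2, pow_mul, Real.sq_sqrt (Nat.cast_nonneg _)]
    rw [← e4]
    exact one_div_le_one_div_of_le (Real.sqrt_pos.2 hx0) (Real.sqrt_le_sqrt hN)
  have e5 : (S.card : ℝ) ≤ 3 * √x := by
    have h2 : S.card ≤ (Finset.Ioc ⌊x⌋₊ ⌊Real.exp (u + h)⌋₊).card := by
      refine Finset.card_le_card_of_injOn (fun p => N p.1 ^ (p.2 + 1)) (fun p hp => ?_)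
        (hinj.injOn)
      rw [Finset.mem_coe, hS, Finset.mem_filter, hmem] at hp
      rw [Finset.mem_coe, Finset.mem_Ioc]
      constructor
      · rw [Nat.floor_lt hx0.le]
        push_cast
        rw [← hlam, hx]
        exact Real.exp_lt_exp.2 hp.2
      · apply Nat.le_floor
        push_cast
        rw [← hlam]
        exact Real.exp_le_exp.2 hp.1
    rw [Nat.card_Ioc] at h2
    have h3 : ⌊x⌋₊ ≤ ⌊Real.exp (u + h)⌋₊ := Nat.floor_le_floor (Real.exp_le_exp.2 (by linarith))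
    have h4 : (S.card : ℝ) ≤ (⌊Real.exp (u + h)⌋₊ : ℝ) - ⌊x⌋₊ := by
      rw [← Nat.cast_sub h3]
      exact_mod_cast h2
    have h5 : (⌊Real.exp (u + h)⌋₊ : ℝ) ≤ Real.exp (u + h) := Nat.floor_le (Real.exp_pos _).le
    have h6 : x - 1 < ⌊x⌋₊ := Nat.sub_one_lt_floor x
    have h7 : Real.exp h - 1 ≤ 2 * h := by
      have := Real.abs_exp_sub_one_le (x := h) (by rw [abs_of_pos h0]; exact h1)
      rw [abs_of_pos h0] at this
      exact (le_abs_self _).trans this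
    have h8 : Real.exp (u + h) - x ≤ 2 * √x := by
      rw [Real.exp_add, ← hx]
      have h9 : x = √x * √x := (Real.mul_self_sqrt hx0.le).symm
      calc x * Real.exp h - x = x * (Real.exp h - 1) := by ring
        _ ≤ x * (2 * h) := mul_le_mul_of_nonneg_left h7 hx0.le
        _ = 2 * √x * (h * √x) := by
          nth_rewrite 1 [h9]
          ring
        _ = 2 * √x := by rw [hhx, mul_one]
    have h9 : 1 ≤ √x := Real.one_le_sqrt.2 hx1
    linarith
  rw [e1, e2]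
  have hsx : 0 < √x := Real.sqrt_pos.2 hx0
  calc ∑ p ∈ S, |cP N α p| ≤ ∑ _p ∈ S, (d : ℝ) / √x := Finset.sum_le_sum e3
    _ = S.card * (d / √x) := by rw [Finset.sum_const, nsmul_eq_mul]
    _ ≤ 3 * √x * (d / √x) := by gcongr
    _ = 3 * d := by field_simp

/-- the correction -/
theorem corr_le (E : Sys N α) (hinj : Function.Injective N) {Y : ℝ} (hY : 1 ≤ Y) :
    |∑ᶠ (v : X) (_ : √Y < N v ∧ (N v : ℝ) ≤ Y), cP N α (v, 1)| ≤ d * (1 + Real.log Y) := by
  classical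
  have hY0 : 0 < Y := by linarith
  have hA := E.fin_le Y
  have hB : {v : X | √Y < N v ∧ (N v : ℝ) ≤ Y}.Finite := hA.subset fun v hv => hv.2
  have h1 : (∑ᶠ (v : X) (_ : √Y < N v ∧ (N v : ℝ) ≤ Y), cP N α (v, 1)) =
      ∑ v ∈ hB.toFinset, cP N α (v, 1) :=
    finsum_mem_eq_finite_toFinset_sum (fun v : X => cP N α (v, 1)) hB
  rw [h1]
  have h2 : ∀ v ∈ hB.toFinset, |cP N α (v, 1)| ≤ d * ((N v : ℝ))⁻¹ := by
    intro v _
    refine (E.cP_abs (v, 1)).trans (le_of_eq ?_)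
    simp only
    rw [div_pow, one_pow, show (1 + 1 : ℕ) = 2 from rfl, Real.sq_sqrt (Nat.cast_nonneg _), one_div]
  have h3 : ∑ v ∈ hB.toFinset, ((N v : ℝ))⁻¹ ≤ ∑ n ∈ Finset.Icc 1 ⌊Y⌋₊, ((n : ℝ))⁻¹ := by
    rw [← Finset.sum_image (g := N) (f := fun n : ℕ => ((n : ℝ))⁻¹) (hinj.injOn)]
    refine Finset.sum_le_sum_of_subset_of_nonneg ?_ fun n _ _ => by positivity
    intro n hn
    rw [Finset.mem_image] at hn
    obtain ⟨v, hv, rfl⟩ := hn
    rw [Set.Finite.mem_toFinset] at hv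
    rw [Finset.mem_Icc]
    exact ⟨by have := E.two_le v; omega, Nat.le_floor hv.2⟩
  have h4 : ∑ n ∈ Finset.Icc 1 ⌊Y⌋₊, ((n : ℝ))⁻¹ ≤ 1 + Real.log Y := by
    have e1 := harmonic_le_one_add_log ⌊Y⌋₊
    have e2 : ((harmonic ⌊Y⌋₊ : ℚ) : ℝ) = ∑ n ∈ Finset.Icc 1 ⌊Y⌋₊, ((n : ℝ))⁻¹ := by
      rw [harmonic_eq_sum_Icc]
      push_cast
      rfl
    rw [← e2]
    refine e1.trans ?_
    have h5 : 1 ≤ ⌊Y⌋₊ := Nat.le_floor (by simpa using hY)
    have h6 : Real.log ⌊Y⌋₊ ≤ Real.log Y :=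
      Real.log_le_log (by exact_mod_cast h5) (Nat.floor_le hY0.le)
    linarith
  calc |∑ v ∈ hB.toFinset, cP N α (v, 1)| ≤ ∑ v ∈ hB.toFinset, |cP N α (v, 1)| :=
        Finset.abs_sum_le_sum_abs _ _
    _ ≤ ∑ v ∈ hB.toFinset, d * ((N v : ℝ))⁻¹ := Finset.sum_le_sum h2
    _ = d * ∑ v ∈ hB.toFinset, ((N v : ℝ))⁻¹ := by rw [Finset.mul_sum]
    _ ≤ d * (1 + Real.log Y) := mul_le_mul_of_nonneg_left (h3.trans h4) (Nat.cast_nonneg _)

end Sys

variable {a b : ℤ} {F : ℂ → ℂ}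

/-- the prime powers are distinct -/
lemma inj_pow (a b : ℤ) :
    Function.Injective fun p : {p : ℕ // GoodPrime a b p} × ℕ => nQ a b p.1 ^ (p.2 + 1) := by
  rintro ⟨⟨p, hp⟩, k⟩ ⟨⟨q, hq⟩, l⟩ h
  have h1 : p ^ (k + 1) = q ^ (l + 1) := h
  obtain ⟨h2, h3⟩ := Nat.Prime.pow_inj hp.1 hq.1 h1
  subst h2
  subst h3
  rfl

lemma inj_nQ (a b : ℤ) : Function.Injective (nQ a b) := fun _ _ h => Subtype.ext h

/-- **The product of Birch and Swinnerton-Dyer is `x^{o(1)}` under the Riemann hypothesis.** -/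
theorem log_bound (hF : IsLSeries a b F) {η C₀ : ℝ} {κ : ℕ} (hη : 0 < η)
    (hg : ∀ s : ℂ, 1 - η < s.re → ‖F s‖ ≤ C₀ * (1 + ‖s‖) ^ κ)
    (hz : ∀ s : ℂ, 1 < s.re → F s ≠ 0) {ε : ℝ} (hε : 0 < ε) :
    ∃ C : ℝ, ∀ x : ℝ, 1 ≤ x → |Real.log (bsdProduct a b x)| ≤ C * x ^ ε := by
  have H := curve_mc hF hη hg
  obtain ⟨e, g, p, he, Q⟩ := H.cn
  have D := Q.D
  have hgrow : ∀ s : ℂ, 0 < s.re → ‖F (1 + s)‖ ≤
      (|C₀| * 2 ^ κ) * (1 + ‖s‖) ^ κ * (1 + 1 / s.re) ^ κ := by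
    intro s hs
    refine (Q.hgrow s (by linarith)).trans ?_
    refine le_mul_of_one_le_right (by positivity) (one_le_pow₀ ?_)
    have : 0 ≤ 1 / s.re := by positivity
    linarith
  obtain ⟨L, A₀, hLD, -, -, hLf⟩ := Pool.Agent.TH270.RS.exists_LD (Ψ := fun s => F (1 + s))
    (G := fun _ => 0) (A' := 0) (κ := κ) (C := |C₀| * 2 ^ κ) D
    (fun s hs => Q.hG s (by linarith))
    (fun s hs => hz (1 + s) (by rw [Complex.add_re, Complex.one_re]; linarith))
    (fun s _ => differentiableAt_const _)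
    (fun s hs => by
      have := Q.hexp s hs
      rw [pow_zero, one_mul] at this
      rw [zero_sub]
      exact this)
    hgrow (fun s _ => by simp)
  have hLf' : ∀ s : ℂ, 1 < s.re → L s = -DD (lamS (nQ a b) e)
      (Pool.Agent.TH270.RS.cS' (nQ a b) (alQ a b) e) s := fun s hs => by
    rw [hLf s hs, zero_sub]
  obtain ⟨C, hC, hb⟩ := sh_pow D hLD hLf' (V₀ := 3 * (2 : ℕ))
    (fun u hu => var_le H.E he (inj_pow a b) hu) hε
  obtain ⟨C', hC'⟩ := sharp_tail H.E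
  refine ⟨C + |C'| + 2 * (1 + 1 / ε), fun x hx => ?_⟩
  have hx0 : 0 < x := by linarith
  have hl : 0 ≤ Real.log x := Real.log_nonneg hx
  have e1 := hC' x hx
  have e2 := hb (Real.log x) hl
  rw [sh_eq H.E he, Real.exp_log hx0, abs_neg] at e2
  have e3 : Real.exp (ε * Real.log x) = x ^ ε := by
    rw [Real.rpow_def_of_pos hx0, mul_comm]
  rw [e3] at e2
  have e4 := corr_le H.E (inj_nQ a b) hx
  rw [← log_product] at e1
  have e5 : x ^ (-(1 / 12 : ℝ)) ≤ 1 := Real.rpow_le_one_of_one_le_of_nonpos hx (by norm_num)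
  have e6 : C' * x ^ (-(1 / 12 : ℝ)) ≤ |C'| := by
    calc C' * x ^ (-(1 / 12 : ℝ)) ≤ |C'| * 1 :=
          mul_le_mul (le_abs_self _) e5 (by positivity) (abs_nonneg _)
      _ = _ := mul_one _
  have e7 : Real.log x ≤ x ^ ε / ε := Real.log_le_rpow_div hx0.le hε
  have e8 : 1 ≤ x ^ ε := Real.one_le_rpow hx hε.le
  set K : ℝ := ∑ᶠ (v : {p : ℕ // GoodPrime a b p}) (_ : √x < nQ a b v ∧ (nQ a b v : ℝ) ≤ x),
    cP (nQ a b) (alQ a b) (v, 1) with hK
  have e9 : |Real.log (bsdProduct a b x)| ≤ |Pl (nQ a b) (alQ a b) x| + |K| + |C'| := by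
    have h1 : Real.log (bsdProduct a b x) = (Real.log (bsdProduct a b x) +
        Pl (nQ a b) (alQ a b) x + K) - Pl (nQ a b) (alQ a b) x - K := by ring
    rw [h1]
    refine (abs_sub _ _).trans ?_
    have h2 := abs_sub (Real.log (bsdProduct a b x) + Pl (nQ a b) (alQ a b) x + K)
      (Pl (nQ a b) (alQ a b) x)
    linarith
  have e10 : |K| ≤ 2 * (1 + 1 / ε) * x ^ ε := by
    refine e4.trans ?_
    push_cast
    have h1 : (1 : ℝ) + Real.log x ≤ (1 + 1 / ε) * x ^ ε := by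
      rw [add_mul, one_mul, one_div, inv_mul_eq_div]
      linarith
    linarith
  have e11 : |C'| ≤ |C'| * x ^ ε := le_mul_of_one_le_right (abs_nonneg _) e8
  calc |Real.log (bsdProduct a b x)| ≤ C * x ^ ε + 2 * (1 + 1 / ε) * x ^ ε + |C'| * x ^ ε := by
        linarith
    _ = _ := by ring

end Pool.Agent.TH942.OB
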