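import Pool.Agent.TH270.MS.Dir
import Pool.Agent.TH942.SL.Lim3

/-!
# A pointwise bound for the sharp partial sums of a general Dirichlet series
-/

set_option autoImplicit false

open MeasureTheory Filter Topology Set Complex
open Pool.Agent.TH942.LS (Dat)
open Pool.Agent.TH942.SL
open Pool.Agent.TH942.RZ (LD)
open Pool.Agent.TH270.MS

namespace Pool.Agent.TH942.OB

variable {lam c : ℕ → ℝ} {δ σ : ℝ} {L : ℂ → ℂ} {A₀ r₀ : ℝ}

lemma re_ne {a : ℝ} (ha : 0 < a) {s : ℂ} (hs : a ≤ s.re) : s ≠ 0 := by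
  rintro rfl
  simp at hs
  linarith

/-- Perron's formula with the kernel `1/s²` -/
theorem perron {b : ℝ} (hb : 0 < b) (y : ℝ) :
    V b (fun z => exp (z * y) / z ^ 2) = ((max y 0 : ℝ) : ℂ) := by
  -- independence of the line
  have hshift : ∀ a b : ℝ, 0 < a → a ≤ b →
      V a (fun z => exp (z * y) / z ^ 2) = V b (fun z => exp (z * y) / z ^ 2) := by
    intro a b ha hab
    refine shift (p := 2) (B := Real.exp (b * |y|) * (1 + 1 / a) ^ (2 : ℝ)) (by norm_num) hab
      (fun s hs _ => ?_) fun s hs hs2 => ?_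
    · exact DifferentiableAt.div (by fun_prop) (by fun_prop) (pow_ne_zero 2 (re_ne ha hs))
    · rw [norm_div, Complex.norm_exp, Complex.re_mul_ofReal, norm_pow, div_eq_mul_one_div,
        mul_assoc]
      have e1 : s.re * y ≤ b * |y| := by
        have := mul_le_mul_of_nonneg_left (le_abs_self y) (ha.le.trans hs)
        exact this.trans (mul_le_mul_of_nonneg_right hs2 (abs_nonneg y))
      exact mul_le_mul (Real.exp_le_exp.2 e1) (sq_line ha hs le_rfl) (by positivity)
        (by positivity)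
  rcases lt_or_ge 0 y with hy | hy
  · rw [max_eq_left hy.le]
    rcases le_total b (1 / y) with h | h
    · rw [hshift b (1 / y) hb h, V_sq hy]
    · rw [← hshift (1 / y) b (by positivity) h, V_sq hy]
  · rw [max_eq_right hy]
    set J : ℝ := (2 * Real.pi)⁻¹ * ∫ t : ℝ, (1 + |t|) ^ (-(3 / 2 : ℝ)) with hJ
    have h1 : ∀ b' : ℝ, b ≤ b' → ‖V b (fun z => exp (z * y) / z ^ 2)‖ ≤
        (b' ^ (-(1 / 2 : ℝ))) * ((1 + 1 / b) ^ (3 / 2 : ℝ) * J) := by
      intro b' hb'
      have hb0 : 0 < b' := hb.trans_le hb'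
      rw [hshift b b' hb hb']
      refine (norm_V_le (g := fun t => (b' ^ (-(1 / 2 : ℝ)) * (1 + 1 / b) ^ (3 / 2 : ℝ)) *
        (1 + |t|) ^ (-(3 / 2 : ℝ))) ((decay_int (by norm_num)).const_mul _) fun t => ?_).trans
        (le_of_eq ?_)
      · have hre : ((b' : ℂ) + t * I).re = b' := by simp
        have him : ((b' : ℂ) + t * I).im = t := by simp
        have hn : b' ≤ ‖(b' : ℂ) + t * I‖ := by
          have := re_le_norm ((b' : ℂ) + t * I)
          rwa [hre] at this
        have hn0 : 0 < ‖(b' : ℂ) + t * I‖ := hb0.trans_le hn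
        rw [norm_div, Complex.norm_exp, Complex.re_mul_ofReal, hre, norm_pow]
        have e1 : Real.exp (b' * y) ≤ 1 := by
          rw [Real.exp_le_one_iff]
          exact mul_nonpos_of_nonneg_of_nonpos hb0.le hy
        have e2 := nb hb (by norm_num : (0 : ℝ) ≤ 3 / 2) (hb'.trans hn)
        rw [him] at e2
        have e3 : ‖(b' : ℂ) + t * I‖ ^ (-(1 / 2 : ℝ)) ≤ b' ^ (-(1 / 2 : ℝ)) :=
          Real.rpow_le_rpow_of_nonpos hb0 hn (by norm_num)
        have e4 : (1 : ℝ) / ‖(b' : ℂ) + t * I‖ ^ 2 =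
            ‖(b' : ℂ) + t * I‖ ^ (-(1 / 2 : ℝ)) * ‖(b' : ℂ) + t * I‖ ^ (-(3 / 2 : ℝ)) := by
          rw [← Real.rpow_add hn0, show (-(1 / 2) + -(3 / 2) : ℝ) = -(2 : ℝ) by norm_num,
            rpow_neg_two hn0.le, one_div]
        calc Real.exp (b' * y) / ‖(b' : ℂ) + t * I‖ ^ 2 ≤ 1 / ‖(b' : ℂ) + t * I‖ ^ 2 :=
              div_le_div_of_nonneg_right e1 (by positivity)
          _ ≤ b' ^ (-(1 / 2 : ℝ)) * ((1 + 1 / b) ^ (3 / 2 : ℝ) * (1 + |t|) ^ (-(3 / 2 : ℝ))) := by
            rw [e4]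
            exact mul_le_mul e3 e2 (by positivity) (by positivity)
          _ = _ := by ring
      · rw [integral_const_mul, hJ]
        ring
    have h2 : Tendsto (fun b' : ℝ => (b' ^ (-(1 / 2 : ℝ))) * ((1 + 1 / b) ^ (3 / 2 : ℝ) * J)) atTop
        (𝓝 0) := by
      have := (tendsto_rpow_neg_atTop (y := 1 / 2) (by norm_num)).mul_const
        ((1 + 1 / b) ^ (3 / 2 : ℝ) * J)
      rwa [zero_mul] at this
    have h3 : ‖V b (fun z => exp (z * y) / z ^ 2)‖ ≤ 0 :=
      ge_of_tendsto h2 (by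
        filter_upwards [eventually_ge_atTop b] with b' hb'
        exact h1 b' hb')
    rw [norm_le_zero_iff] at h3
    rw [h3, Complex.ofReal_zero]

/-- the first Riesz sum -/
noncomputable def R1 (lam c : ℕ → ℝ) (u : ℝ) : ℝ := ∑' n, c n * max (u - lam n) 0

lemma max_le_exp {σ : ℝ} (hσ : 0 < σ) (y : ℝ) : max y 0 ≤ Real.exp (σ * y) / σ := by
  rw [le_div_iff₀ hσ]
  rcases le_total y 0 with h | h
  · rw [max_eq_right h, zero_mul]
    positivity
  · rw [max_eq_left h]
    have := Real.add_one_le_exp (σ * y)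
    linarith

lemma r1_term (D : Dat lam c δ σ) (u : ℝ) (n : ℕ) :
    ‖c n * max (u - lam n) 0‖ ≤ Real.exp (σ * u) / σ * (|c n| * Real.exp (-(σ * lam n))) := by
  rw [norm_mul, Real.norm_eq_abs, Real.norm_of_nonneg (le_max_right _ _)]
  calc |c n| * max (u - lam n) 0 ≤ |c n| * (Real.exp (σ * (u - lam n)) / σ) :=
        mul_le_mul_of_nonneg_left (max_le_exp D.σ0 _) (abs_nonneg _)
    _ = _ := by
      rw [show σ * (u - lam n) = σ * u + -(σ * lam n) by ring, Real.exp_add]
      ring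

lemma r1_summable (D : Dat lam c δ σ) (u : ℝ) : Summable fun n => c n * max (u - lam n) 0 :=
  Summable.of_norm_bounded (D.sum.mul_left (Real.exp (σ * u) / σ)) fun n => r1_term D u n

/-- **Perron's formula for the first Riesz sum.** -/
theorem r1_eq (D : Dat lam c δ σ) {b : ℝ} (hb : σ < b) (u : ℝ) :
    ((R1 lam c u : ℝ) : ℂ) = V b (fun s => DD lam c s * exp (s * u) / s ^ 2) := by
  have hb0 : 0 < b := D.σ0.trans hb
  set F : ℕ → ℝ → ℂ := fun n t => (c n : ℂ) *
    (exp (((b : ℂ) + t * I) * ((u - lam n : ℝ) : ℂ)) / ((b : ℂ) + t * I) ^ 2) with hF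
  have hre : ∀ t : ℝ, ((b : ℂ) + t * I).re = b := fun t => by simp
  have him : ∀ t : ℝ, ((b : ℂ) + t * I).im = t := fun t => by simp
  have hJ : Integrable fun t : ℝ => 1 / ‖(b : ℂ) + t * I‖ ^ 2 := by
    refine ((decay_int (p := 2) (by norm_num)).const_mul ((1 + 1 / b) ^ (2 : ℝ))).mono' ?_
      (Eventually.of_forall fun t => ?_)
    · refine Continuous.aestronglyMeasurable ?_
      refine Continuous.div continuous_const (by fun_prop) fun t => ?_
      exact pow_ne_zero 2 (norm_ne_zero_iff.2 (re_ne hb0 (hre t).ge))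
    · rw [Real.norm_of_nonneg (by positivity)]
      have := sq_line hb0 (hre t).ge (p := 2) le_rfl
      rwa [him] at this
  have hFn : ∀ n t, ‖F n t‖ = |c n| * Real.exp (b * (u - lam n)) * (1 / ‖(b : ℂ) + t * I‖ ^ 2) := by
    intro n t
    rw [hF]
    simp only
    rw [norm_mul, norm_div, Complex.norm_real, Real.norm_eq_abs, Complex.norm_exp,
      Complex.re_mul_ofReal, hre, norm_pow]
    ring
  have hFc : ∀ n, Continuous (F n) := by
    intro n
    rw [hF]
    simp only
    refine continuous_const.mul (Continuous.div (by fun_prop) (by fun_prop) fun t => ?_)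
    exact pow_ne_zero 2 (re_ne hb0 (hre t).ge)
  have hFi : ∀ n, Integrable (F n) := fun n =>
    (hJ.const_mul (|c n| * Real.exp (b * (u - lam n)))).mono' (hFc n).aestronglyMeasurable
      (Eventually.of_forall fun t => (hFn n t).le)
  have hFs : Summable fun n => ∫ t : ℝ, ‖F n t‖ := by
    simp only [hFn]
    simp only [integral_const_mul]
    refine Summable.mul_right _ ?_
    refine Summable.of_nonneg_of_le (fun n => by positivity) (fun n => ?_)
      (D.sum.mul_left (Real.exp (b * u)))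
    have h1 : Real.exp (-(b * lam n)) ≤ Real.exp (-(σ * lam n)) := by
      apply Real.exp_le_exp.2
      have h2 := D.lam_ge n
      have h3 := D.δ0
      nlinarith
    calc |c n| * Real.exp (b * (u - lam n)) =
          Real.exp (b * u) * (|c n| * Real.exp (-(b * lam n))) := by
          rw [show b * (u - lam n) = b * u + -(b * lam n) by ring, Real.exp_add]
          ring
      _ ≤ _ := by gcongr
  have h1 := integral_tsum_of_summable_integral_norm hFi hFs
  have h2 : ∀ t : ℝ, ∑' n, F n t =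
      DD lam c ((b : ℂ) + t * I) * exp (((b : ℂ) + t * I) * u) / ((b : ℂ) + t * I) ^ 2 := by
    intro t
    unfold DD
    rw [mul_div_assoc, ← tsum_mul_right]
    refine tsum_congr fun n => ?_
    rw [hF]
    simp only
    rw [show ((b : ℂ) + t * I) * ((u - lam n : ℝ) : ℂ) =
      -(((b : ℂ) + t * I) * lam n) + ((b : ℂ) + t * I) * u by push_cast; ring, Complex.exp_add]
    ring
  simp only [h2] at h1
  unfold V
  rw [← h1, ← tsum_mul_left]
  unfold R1
  rw [Complex.ofReal_tsum]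
  refine tsum_congr fun n => ?_
  have h3 := perron hb0 (u - lam n)
  unfold V at h3
  rw [hF]
  simp only
  rw [integral_const_mul, mul_left_comm, h3]
  push_cast
  rfl

/-- the exponential near `1` -/
lemma exp_sub_one_pow {x η h : ℝ} (hx : 0 < x) (hη : 0 < η) (hη1 : η ≤ 1) (h0 : 0 < h)
    (h1 : h ≤ 1) {s : ℂ} (hs : s.re = x) :
    ‖exp (s * h) - 1‖ ≤ (Real.exp x + 2) * (‖s‖ ^ (1 - η) * h ^ (1 - η)) := by
  have hn : 0 < ‖s‖ := norm_pos_iff.2 (re_ne hx hs.ge)
  rw [← Real.mul_rpow hn.le h0.le]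
  have hw : ‖s * (h : ℂ)‖ = ‖s‖ * h := by
    rw [norm_mul, Complex.norm_real, Real.norm_of_nonneg h0.le]
  have hex := Real.exp_pos x
  rcases le_or_gt (‖s‖ * h) 1 with h2 | h2
  · have e1 := Complex.norm_exp_sub_one_le (x := s * h) (by rwa [hw])
    rw [hw] at e1
    have e2 : ‖s‖ * h ≤ (‖s‖ * h) ^ (1 - η) := by
      have := Real.rpow_le_rpow_of_exponent_ge (x := ‖s‖ * h) (by positivity) h2
        (by linarith : 1 - η ≤ 1)
      rwa [Real.rpow_one] at this
    have e3 : 0 ≤ (‖s‖ * h) ^ (1 - η) := by positivity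
    nlinarith
  · have e1 : ‖exp (s * h) - 1‖ ≤ Real.exp x + 1 := by
      refine (norm_sub_le _ _).trans ?_
      rw [norm_one, Complex.norm_exp, Complex.re_mul_ofReal, hs]
      have : Real.exp (x * h) ≤ Real.exp x := Real.exp_le_exp.2 (by nlinarith)
      linarith
    have e2 : 1 ≤ (‖s‖ * h) ^ (1 - η) := Real.one_le_rpow h2.le (by linarith)
    nlinarith

/-- **The increments of the first Riesz sum.** -/
theorem r1_incr (D : Dat lam c δ σ) (hL : LD L A₀ r₀)
    (hLf : ∀ s : ℂ, σ < s.re → L s = -DD lam c s) {x η : ℝ} (hx : 0 < x) (hη : 0 < η)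
    (hη1 : η ≤ 1) :
    ∃ B : ℝ, 0 ≤ B ∧ ∀ u h : ℝ, 0 < h → h ≤ 1 →
      |R1 lam c (u + h) - R1 lam c u| ≤ B * (Real.exp (x * u) * h ^ (1 - η)) := by
  obtain ⟨B₁, hB₁, hb⟩ := hL.pow hx (ε := η / 2) (by positivity)
  set b : ℝ := max x σ + 1 with hbd
  have hxb : x ≤ b := by rw [hbd]; linarith [le_max_left x σ]
  have hσb : σ < b := by rw [hbd]; linarith [le_max_right x σ]
  have hb0 : 0 < b := hx.trans_le hxb
  set g : ℝ → ℂ → ℂ := fun u s => -L s * exp (s * u) / s ^ 2 with hg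
  -- the bound in the strip
  have hgb : ∀ u : ℝ, ∀ s : ℂ, x ≤ s.re → s.re ≤ b → ‖g u s‖ ≤
      (B₁ * Real.exp (b * |u|) * (1 + 1 / x) ^ (2 : ℝ)) * (1 + |s.im|) ^ (-(3 / 2 : ℝ)) := by
    intro u s hs hs2
    have hs0 : 0 < s.re := hx.trans_le hs
    have ht : (1 : ℝ) ≤ 1 + |s.im| := by linarith [abs_nonneg s.im]
    rw [hg]
    simp only
    rw [norm_div, norm_mul, norm_neg, Complex.norm_exp, Complex.re_mul_ofReal, norm_pow,
      div_eq_mul_one_div]
    have e1 : s.re * u ≤ b * |u| := by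
      have := mul_le_mul_of_nonneg_left (le_abs_self u) hs0.le
      exact this.trans (mul_le_mul_of_nonneg_right hs2 (abs_nonneg u))
    have e2 := sq_line hx hs (p := 2) le_rfl
    have e3 := hb s hs
    have e4 : (1 + |s.im|) ^ (η / 2) * (1 + |s.im|) ^ (-(2 : ℝ)) ≤
        (1 + |s.im|) ^ (-(3 / 2 : ℝ)) := by
      rw [← Real.rpow_add (by linarith)]
      exact Real.rpow_le_rpow_of_exponent_le ht (by linarith)
    calc ‖L s‖ * Real.exp (s.re * u) * (1 / ‖s‖ ^ 2) ≤
          (B₁ * (1 + |s.im|) ^ (η / 2)) * Real.exp (b * |u|) *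
            ((1 + 1 / x) ^ (2 : ℝ) * (1 + |s.im|) ^ (-(2 : ℝ))) := by
          refine mul_le_mul (mul_le_mul e3 (Real.exp_le_exp.2 e1) (by positivity)
            (by positivity)) e2 (by positivity) (by positivity)
      _ = (B₁ * Real.exp (b * |u|) * (1 + 1 / x) ^ (2 : ℝ)) *
          ((1 + |s.im|) ^ (η / 2) * (1 + |s.im|) ^ (-(2 : ℝ))) := by ring
      _ ≤ _ := mul_le_mul_of_nonneg_left e4 (by positivity)
  have hgd : ∀ u : ℝ, ∀ s : ℂ, x ≤ s.re → DifferentiableAt ℂ (g u) s := by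
    intro u s hs
    have hs0 : 0 < s.re := hx.trans_le hs
    exact DifferentiableAt.div ((hL.d s hs0).neg.mul (by fun_prop)) (by fun_prop)
      (pow_ne_zero 2 (re_ne hx hs))
  have hR : ∀ u : ℝ, ((R1 lam c u : ℝ) : ℂ) = V x (g u) := by
    intro u
    rw [shift (p := 3 / 2) (by norm_num) hxb (fun s hs _ => hgd u s hs) (hgb u),
      r1_eq D hσb u]
    unfold V
    congr 2
    funext t
    rw [hg]
    simp only
    rw [hLf _ (by simpa using hσb), neg_neg]
  have hgi : ∀ u : ℝ, Integrable fun t : ℝ => g u (x + t * I) := fun u =>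
    line_int (p := 3 / 2) (by norm_num) (fun s hs => (hgd u s hs.ge).continuousAt)
      fun s hs => hgb u s hs.ge (hs.le.trans hxb)
  set J : ℝ := (2 * Real.pi)⁻¹ * ∫ t : ℝ, (1 + |t|) ^ (-(1 + η / 2)) with hJ
  have hJ0 : 0 ≤ J := by
    rw [hJ]
    refine mul_nonneg (by positivity) (integral_nonneg fun t => ?_)
    positivity
  refine ⟨B₁ * (Real.exp x + 2) * (1 + 1 / x) ^ (1 + η) * J, by positivity, fun u h h0 h1 => ?_⟩
  have hV : ((R1 lam c (u + h) - R1 lam c u : ℝ) : ℂ) = V x (fun s => g (u + h) s - g u s) := by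
    rw [Complex.ofReal_sub, hR, hR]
    unfold V
    rw [integral_sub (hgi _) (hgi _), mul_sub]
  rw [← Real.norm_eq_abs, ← Complex.norm_real, hV]
  refine (norm_V_le (g := fun t => (B₁ * (Real.exp x + 2) * (1 + 1 / x) ^ (1 + η) *
    (Real.exp (x * u) * h ^ (1 - η))) * (1 + |t|) ^ (-(1 + η / 2)))
    ((decay_int (by linarith)).const_mul _) fun t => ?_).trans (le_of_eq ?_)
  · set s : ℂ := (x : ℂ) + t * I with hs
    have hre : s.re = x := by rw [hs]; simp
    have him : s.im = t := by rw [hs]; simp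
    have hn : 0 < ‖s‖ := norm_pos_iff.2 (re_ne hx hre.ge)
    have ht : (1 : ℝ) ≤ 1 + |t| := by linarith [abs_nonneg t]
    have e0 : g (u + h) s - g u s = -L s * exp (s * u) / s ^ 2 * (exp (s * h) - 1) := by
      rw [hg]
      simp only
      rw [show s * ((u + h : ℝ) : ℂ) = s * u + s * h by push_cast; ring, Complex.exp_add]
      ring
    rw [e0, norm_mul, norm_div, norm_mul, norm_neg, Complex.norm_exp, Complex.re_mul_ofReal, hre,
      norm_pow]
    have e1 := hb s hre.ge
    rw [him] at e1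
    have e2 := exp_sub_one_pow hx hη hη1 h0 h1 hre
    have e3 := nb hx (by linarith : (0 : ℝ) ≤ 1 + η) (hre.ge.trans (re_le_norm s))
    rw [him] at e3
    have e4 : ‖s‖ ^ (1 - η) / ‖s‖ ^ 2 = ‖s‖ ^ (-(1 + η)) := by
      rw [div_eq_mul_inv, ← rpow_neg_two hn.le, ← Real.rpow_add hn]
      congr 1
      ring
    have e5 : (1 + |t|) ^ (η / 2) * (1 + |t|) ^ (-(1 + η)) = (1 + |t|) ^ (-(1 + η / 2)) := by
      rw [← Real.rpow_add (by linarith)]
      congr 1
      ring
    calc ‖L s‖ * Real.exp (x * u) / ‖s‖ ^ 2 * ‖exp (s * h) - 1‖ ≤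
          (B₁ * (1 + |t|) ^ (η / 2)) * Real.exp (x * u) / ‖s‖ ^ 2 *
            ((Real.exp x + 2) * (‖s‖ ^ (1 - η) * h ^ (1 - η))) := by
          gcongr
      _ = B₁ * (Real.exp x + 2) * (Real.exp (x * u) * h ^ (1 - η)) * ((1 + |t|) ^ (η / 2) *
          (‖s‖ ^ (1 - η) / ‖s‖ ^ 2)) := by ring
      _ ≤ B₁ * (Real.exp x + 2) * (Real.exp (x * u) * h ^ (1 - η)) * ((1 + |t|) ^ (η / 2) *
          ((1 + 1 / x) ^ (1 + η) * (1 + |t|) ^ (-(1 + η)))) := by
          rw [e4]
          gcongr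
      _ = B₁ * (Real.exp x + 2) * (1 + 1 / x) ^ (1 + η) * (Real.exp (x * u) * h ^ (1 - η)) *
          ((1 + |t|) ^ (η / 2) * (1 + |t|) ^ (-(1 + η))) := by ring
      _ = _ := by rw [e5]
  · rw [integral_const_mul, hJ]
    ring

/-- the variation over a short interval -/
noncomputable def Var (lam c : ℕ → ℝ) (u h : ℝ) : ℝ :=
  ∑' n, if u < lam n ∧ lam n ≤ u + h then |c n| else 0

lemma var_term (D : Dat lam c δ σ) (u h : ℝ) (n : ℕ) :
    ‖(if u < lam n ∧ lam n ≤ u + h then |c n| else 0 : ℝ)‖ ≤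
      Real.exp (σ * (u + h)) * (|c n| * Real.exp (-(σ * lam n))) := by
  have h1 := sh_term D (u + h) n
  split_ifs with h2
  · rw [if_pos h2.2] at h1
    rwa [norm_abs_eq_norm] at *
  · rw [norm_zero]
    positivity

lemma var_summable (D : Dat lam c δ σ) (u h : ℝ) :
    Summable fun n => (if u < lam n ∧ lam n ≤ u + h then |c n| else 0 : ℝ) :=
  Summable.of_norm_bounded (D.sum.mul_left (Real.exp (σ * (u + h)))) fun n => var_term D u h n

/-- the sharp sums and the first Riesz sums -/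
theorem sh_le_r1 (D : Dat lam c δ σ) {u h : ℝ} (h0 : 0 < h) :
    h * |Sh lam c u| ≤ |R1 lam c (u + h) - R1 lam c u| + h * Var lam c u h := by
  set e : ℕ → ℝ := fun n => if u < lam n ∧ lam n ≤ u + h then c n * (u + h - lam n) else 0 with he
  have h1 : ∀ n, c n * max (u + h - lam n) 0 - c n * max (u - lam n) 0 =
      h * (if lam n ≤ u then c n else 0) + e n := by
    intro n
    rw [he]
    simp only
    rcases le_or_gt (lam n) u with h2 | h2
    · rw [if_pos h2, if_neg (by intro h; linarith [h.1]), max_eq_left (by linarith),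
        max_eq_left (by linarith)]
      ring
    · rw [if_neg (not_le.2 h2), max_eq_right (by linarith : u - lam n ≤ 0)]
      rcases le_or_gt (lam n) (u + h) with h3 | h3
      · rw [if_pos ⟨h2, h3⟩, max_eq_left (by linarith)]
        ring
      · rw [if_neg (by intro h; linarith [h.2]), max_eq_right (by linarith)]
        ring
  have s1 := r1_summable D (u + h)
  have s2 := r1_summable D u
  have s3 := sh_summable D u
  have s4 : Summable e := by
    have := (s1.sub s2).sub (s3.mul_left h)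
    refine this.congr fun n => ?_
    rw [h1 n]
    ring
  have h2 : R1 lam c (u + h) - R1 lam c u = h * Sh lam c u + ∑' n, e n := by
    unfold R1 Sh
    rw [← s1.tsum_sub s2, ← tsum_mul_left, ← (s3.mul_left h).tsum_add s4]
    exact tsum_congr h1
  have h3 : |∑' n, e n| ≤ h * Var lam c u h := by
    rw [← Real.norm_eq_abs]
    unfold Var
    refine tsum_of_norm_bounded ((var_summable D u h).hasSum.mul_left h) fun n => ?_
    rw [he]
    simp only
    split_ifs with h4
    · rw [norm_mul, Real.norm_eq_abs, Real.norm_of_nonneg (by linarith [h4.2]), mul_comm]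
      exact mul_le_mul_of_nonneg_right (by linarith [h4.1]) (abs_nonneg _)
    · rw [norm_zero, mul_zero]
  have h4 : h * |Sh lam c u| = |h * Sh lam c u| := by rw [abs_mul, abs_of_pos h0]
  have h5 : h * Sh lam c u = (R1 lam c (u + h) - R1 lam c u) - ∑' n, e n := by rw [h2]; ring
  rw [h4, h5]
  exact (abs_sub _ _).trans (by linarith)

/-- **The pointwise bound.** -/
theorem sh_pow (D : Dat lam c δ σ) (hL : LD L A₀ r₀)
    (hLf : ∀ s : ℂ, σ < s.re → L s = -DD lam c s) {V₀ : ℝ}
    (hV : ∀ u : ℝ, 0 ≤ u → Var lam c u (Real.exp (-(u / 2))) ≤ V₀) {ε : ℝ} (hε : 0 < ε) :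
    ∃ C : ℝ, 0 ≤ C ∧ ∀ u : ℝ, 0 ≤ u → |Sh lam c u| ≤ C * Real.exp (ε * u) := by
  set η : ℝ := min ε 1 with hη
  have hη0 : 0 < η := lt_min hε one_pos
  obtain ⟨B, hB, hb⟩ := r1_incr D hL hLf (x := ε / 2) (η := η) (by positivity) hη0
    (min_le_right _ _)
  refine ⟨B + |V₀|, by positivity, fun u hu => ?_⟩
  set h : ℝ := Real.exp (-(u / 2)) with hh
  have h0 : 0 < h := Real.exp_pos _
  have h1 : h ≤ 1 := by rw [hh, Real.exp_le_one_iff]; linarith
  have e1 := sh_le_r1 D (u := u) h0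
  have e2 := hb u h h0 h1
  have e3 := hV u hu
  have e4 : h ^ (1 - η) = h * Real.exp (η * (u / 2)) := by
    rw [Real.rpow_sub h0, Real.rpow_one, div_eq_mul_inv, ← Real.rpow_neg h0.le]
    congr 1
    rw [Real.rpow_def_of_pos h0, hh, Real.log_exp]
    congr 1
    ring
  have e5 : Real.exp (ε / 2 * u) * Real.exp (η * (u / 2)) ≤ Real.exp (ε * u) := by
    rw [← Real.exp_add]
    apply Real.exp_le_exp.2
    have : η * (u / 2) ≤ ε * (u / 2) := mul_le_mul_of_nonneg_right (min_le_left _ _) (by linarith)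
    linarith
  have e6 : (1 : ℝ) ≤ Real.exp (ε * u) := Real.one_le_exp (by positivity)
  have e7 : h * |Sh lam c u| ≤ h * ((B + |V₀|) * Real.exp (ε * u)) := by
    calc h * |Sh lam c u| ≤ B * (Real.exp (ε / 2 * u) * (h * Real.exp (η * (u / 2)))) +
          h * V₀ := by
          rw [e4] at e2
          have := mul_le_mul_of_nonneg_left e3 h0.le
          linarith
      _ = h * (B * (Real.exp (ε / 2 * u) * Real.exp (η * (u / 2))) + V₀) := by ring
      _ ≤ h * (B * Real.exp (ε * u) + |V₀| * Real.exp (ε * u)) := by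
          refine mul_le_mul_of_nonneg_left (add_le_add (mul_le_mul_of_nonneg_left e5 hB) ?_) h0.le
          calc V₀ ≤ |V₀| * 1 := by rw [mul_one]; exact le_abs_self _
            _ ≤ _ := mul_le_mul_of_nonneg_left e6 (abs_nonneg _)
      _ = _ := by ring
  exact le_of_mul_le_mul_left e7 h0

end Pool.Agent.TH942.OB
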